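import Pool.Agent.H.MP_9703cd_gt.Defs

namespace Pool.Agent.H.MP_9703cd_gt

open Set Filter Topology
open scoped ContDiff

abbrev P := ℝ × ℝ

def HD (W : Set P) (e : P) (a a' : P → ℝ) : Prop :=
  ∀ p ∈ W, HasDerivAt (fun t : ℝ => a (p + t • e)) (a' p) 0

variable {W : Set P} {e e' : P} {a a' b b' : P → ℝ}

theorem HD.mul (h : HD W e a a') (h' : HD W e b b') :
    HD W e (fun p => a p * b p) (fun p => a' p * b p + a p * b' p) := fun p hp => by
  refine ((h p hp).mul (h' p hp)).congr_deriv ?_
  simp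

theorem HD.add (h : HD W e a a') (h' : HD W e b b') :
    HD W e (fun p => a p + b p) (fun p => a' p + b' p) := fun p hp => (h p hp).add (h' p hp)

theorem HD.const (c : ℝ) : HD W e (fun _ => c) (fun _ => 0) := fun _ _ => hasDerivAt_const _ _

theorem HD.zero (hW : IsOpen W) (h0 : ∀ p ∈ W, a p = 0) (h : HD W e a a') : ∀ p ∈ W, a' p = 0 := by
  intro p hp
  have ht : Tendsto (fun t : ℝ => p + t • e) (𝓝 0) (𝓝 p) := by
    have : Continuous fun t : ℝ => p + t • e := by fun_prop
    simpa using this.tendsto 0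
  refine (h p hp).unique ((hasDerivAt_const (0 : ℝ) (0 : ℝ)).congr_of_eventuallyEq ?_)
  filter_upwards [ht.eventually (hW.mem_nhds hp)] with t h1 using h0 _ h1

theorem HD.congr (h : HD W e a a') (h' : ∀ p ∈ W, a' p = b' p) : HD W e a b' := fun p hp =>
  h' p hp ▸ h p hp

noncomputable def D (e : P) (a : P → ℝ) : P → ℝ := fun p => fderiv ℝ a p e

theorem D_smooth (hW : IsOpen W) (h : ContDiffOn ℝ ∞ a W) (e : P) : ContDiffOn ℝ ∞ (D e a) W :=
  (h.fderiv_of_isOpen hW (by simp)).clm_apply contDiffOn_const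

theorem D_hd (hW : IsOpen W) (h : ContDiffOn ℝ ∞ a W) (e : P) : HD W e a (D e a) := by
  intro p hp
  have h1 : HasFDerivAt a (fderiv ℝ a p) (p + (0 : ℝ) • e) := by
    simpa using ((h.contDiffAt (hW.mem_nhds hp)).differentiableAt (by simp)).hasFDerivAt
  have h2 : HasDerivAt (fun t : ℝ => p + t • e) e 0 := by
    simpa using ((hasDerivAt_id (0 : ℝ)).smul_const e).const_add p
  exact h1.comp_hasDerivAt (0 : ℝ) h2

theorem D_comm (hW : IsOpen W) (h : ContDiffOn ℝ ∞ a W) (e e' : P) :
    ∀ p ∈ W, D e (D e' a) p = D e' (D e a) p := by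
  intro p hp
  have h1 := h.contDiffAt (hW.mem_nhds hp)
  have h2 : DifferentiableAt ℝ (fderiv ℝ a) p :=
    (h1.fderiv_right (m := 1) (by norm_cast)).differentiableAt (by simp)
  have key : ∀ e e', D e (D e' a) p = fderiv ℝ (fderiv ℝ a) p e e' := by
    intro e e'
    unfold D
    rw [fderiv_clm_apply h2 (differentiableAt_const _)]
    simp
  rw [key, key]
  exact (h1.isSymmSndFDerivAt (by simp; norm_cast)) e e'

theorem D_congr (hW : IsOpen W) (h : ∀ p ∈ W, a p = b p) (e : P) : ∀ p ∈ W, D e a p = D e b p := by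
  intro p hp
  unfold D
  rw [Filter.EventuallyEq.fderiv_eq (by filter_upwards [hW.mem_nhds hp] with q hq using h q hq)]

theorem jets (hW : IsOpen W) (h : ContDiffOn ℝ ∞ a W) (e e' : P) :
    ∃ uu uv vv uuu uuv uvv vvv : P → ℝ, HD W e a (D e a) ∧ HD W e' a (D e' a) ∧
      HD W e (D e a) uu ∧ HD W e' (D e a) uv ∧ HD W e (D e' a) uv ∧ HD W e' (D e' a) vv ∧
      HD W e uu uuu ∧ HD W e' uu uuv ∧ HD W e uv uuv ∧ HD W e' uv uvv ∧ HD W e vv uvv ∧
      HD W e' vv vvv := by
  have s1 := D_smooth hW h e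
  have s2 := D_smooth hW h e'
  refine ⟨D e (D e a), D e' (D e a), D e' (D e' a), _, D e' (D e (D e a)), D e' (D e' (D e a)), _,
    D_hd hW h e, D_hd hW h e', D_hd hW s1 e, D_hd hW s1 e',
    (D_hd hW s2 e).congr (D_comm hW h e e'), D_hd hW s2 e', D_hd hW (D_smooth hW s1 e) e,
    D_hd hW (D_smooth hW s1 e) e', (D_hd hW (D_smooth hW s1 e') e).congr (D_comm hW s1 e e'),
    D_hd hW (D_smooth hW s1 e') e', (D_hd hW (D_smooth hW s2 e') e).congr fun p hp => ?_,
    D_hd hW (D_smooth hW s2 e') e'⟩
  rw [D_comm hW s2 e e' p hp]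
  exact D_congr hW (D_comm hW h e e') e' p hp

theorem core (hW : IsOpen W) {x y : P → ℝ} (hx : ContDiffOn ℝ ∞ x W) (hy : ContDiffOn ℝ ∞ y W)
    (e e' : P) {w : P} (hw : w ∈ W) (x0 : x w = 0) (y0 : y w = -1 / 8) (yu0 : D e y w = 0)
    (F1 : ∀ p ∈ W, D e x p * D e' x p + D e y p * D e' y p +
      (48 * (x p * x p) * D e x p + 48 * (y p * y p) * D e y p) *
      (48 * (x p * x p) * D e' x p + 48 * (y p * y p) * D e' y p) = 0)
    (F2 : ∀ p ∈ W, D e x p * D e x p + D e y p * D e y p +
      (48 * (x p * x p) * D e x p + 48 * (y p * y p) * D e y p) *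
      (48 * (x p * x p) * D e x p + 48 * (y p * y p) * D e y p) + (-1) *
      (D e' x p * D e' x p + D e' y p * D e' y p +
      (48 * (x p * x p) * D e' x p + 48 * (y p * y p) * D e' y p) *
      (48 * (x p * x p) * D e' x p + 48 * (y p * y p) * D e' y p)) = 0)
    (F3 : ∀ p ∈ W, x p * D e x p * D e' x p + y p * D e y p * D e' y p = 0) : D e x w = 0 := by
  by_contra hα
  obtain ⟨xuu, xuv, xvv, xuuu, xuuv, xuvv, xvvv, a1, a2, a3, a4, a5, a6, a7, a8, a9, a10, a11,
    a12⟩ := jets hW hx e e'
  obtain ⟨yuu, yuv, yvv, yuuu, yuuv, yuvv, yvvv, b1, b2, b3, b4, b5, b6, b7, b8, b9, b10, b11,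
    b12⟩ := jets hW hy e e'
  generalize D e x = xu at *
  generalize D e' x = xv at *
  generalize D e y = yu at *
  generalize D e' y = yv at *
  have F3u := HD.zero (e := e) hW F3 (by
    repeat' first | assumption | apply HD.add | apply HD.mul | apply HD.const)
  have F3v := HD.zero (e := e') hW F3 (by
    repeat' first | assumption | apply HD.add | apply HD.mul | apply HD.const)
  have F3uu := HD.zero (e := e) hW F3u (by
    repeat' first | assumption | apply HD.add | apply HD.mul | apply HD.const)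
  have F3vv := HD.zero (e := e') hW F3v (by
    repeat' first | assumption | apply HD.add | apply HD.mul | apply HD.const)
  have F1u := HD.zero (e := e) hW F1 (by
    repeat' first | assumption | apply HD.add | apply HD.mul | apply HD.const)
  have F1v := HD.zero (e := e') hW F1 (by
    repeat' first | assumption | apply HD.add | apply HD.mul | apply HD.const)
  have F1uu := HD.zero (e := e) hW F1u (by
    repeat' first | assumption | apply HD.add | apply HD.mul | apply HD.const)
  have F2u := HD.zero (e := e) hW F2 (by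
    repeat' first | assumption | apply HD.add | apply HD.mul | apply HD.const)
  have F2uv := HD.zero (e := e') hW F2u (by
    repeat' first | assumption | apply HD.add | apply HD.mul | apply HD.const)
  have c1 := F1 w hw
  have c2 := F2 w hw
  have c3 := F3u w hw
  have c4 := F3v w hw
  have c5 := F1u w hw
  have c6 := F1v w hw
  have c7 := F3uu w hw
  have c8 := F3vv w hw
  have c9 := F1uu w hw
  have c10 := F2uv w hw
  clear F1 F2 F3 F3u F3v F3uu F3vv F1u F1v F1uu F2u F2uv
  have xv0 : xv w = 0 := by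
    simp only [x0, yu0, mul_zero, zero_mul, add_zero] at c1
    exact (mul_eq_zero.1 c1).resolve_left hα
  have hβ : yv w ≠ 0 := by
    intro h
    simp only [x0, yu0, xv0, h, mul_zero, zero_mul, add_zero] at c2
    exact hα (mul_self_eq_zero.1 c2)
  have yuu0 : yuu w = 0 := by
    simp only [x0, y0, yu0, xv0, mul_zero, zero_mul, add_zero, zero_add] at c3
    have : yuu w * yv w = 0 := by linarith
    exact (mul_eq_zero.1 this).resolve_right hβ
  have yuv0 : yuv w = 0 := by
    simp only [x0, y0, yu0, xv0, mul_zero, zero_mul, add_zero, zero_add] at c4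
    have : yuv w * yv w = 0 := by linarith
    exact (mul_eq_zero.1 this).resolve_right hβ
  have xuv0 : xuv w = 0 := by
    simp only [x0, yu0, xv0, yuu0, mul_zero, zero_mul, add_zero, zero_add] at c5
    exact (mul_eq_zero.1 c5).resolve_left hα
  have xvv0 : xvv w = 0 := by
    simp only [x0, yu0, xv0, yuv0, mul_zero, zero_mul, add_zero, zero_add] at c6
    exact (mul_eq_zero.1 c6).resolve_left hα
  have yuuu0 : yuuu w = 0 := by
    simp only [x0, y0, yu0, xv0, yuu0, xuv0, mul_zero, zero_mul, add_zero, zero_add] at c7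
    have : yuuu w * yv w = 0 := by linarith
    exact (mul_eq_zero.1 this).resolve_right hβ
  have yuvv0 : yuvv w = 0 := by
    simp only [x0, y0, yu0, xv0, yuv0, mul_zero, zero_mul, add_zero, zero_add] at c8
    have : yuvv w * yv w = 0 := by linarith
    exact (mul_eq_zero.1 this).resolve_right hβ
  simp only [x0, y0, yu0, xv0, yuu0, yuv0, xuv0, xvv0, yuuu0, yuvv0, mul_zero, zero_mul, add_zero,
    zero_add] at c9 c10
  have : xu w ^ 3 * yv w = 0 := by linarith
  rcases mul_eq_zero.1 this with h | h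
  · exact hα (pow_eq_zero_iff (by norm_num) |>.1 h)
  · exact hβ h

end Pool.Agent.H.MP_9703cd_gt
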