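import Mathlib

namespace Pool.Agent.H.MP_9703cd_gt

open Set
open scoped ContDiff

structure IsContTNorm (T : ℝ × ℝ → ℝ) : Prop where
  maps : ∀ x ∈ Icc (0 : ℝ) 1, ∀ y ∈ Icc (0 : ℝ) 1, T (x, y) ∈ Icc (0 : ℝ) 1
  assoc : ∀ x ∈ Icc (0 : ℝ) 1, ∀ y ∈ Icc (0 : ℝ) 1, ∀ z ∈ Icc (0 : ℝ) 1,
    T (T (x, y), z) = T (x, T (y, z))
  comm : ∀ x ∈ Icc (0 : ℝ) 1, ∀ y ∈ Icc (0 : ℝ) 1, T (x, y) = T (y, x)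
  mono : ∀ x ∈ Icc (0 : ℝ) 1, ∀ x' ∈ Icc (0 : ℝ) 1, ∀ y ∈ Icc (0 : ℝ) 1,
    x ≤ x' → T (x, y) ≤ T (x', y)
  one : ∀ x ∈ Icc (0 : ℝ) 1, T (x, 1) = x
  cont : ContinuousOn T (Icc 0 1 ×ˢ Icc 0 1)

noncomputable def form1 (T : ℝ × ℝ → ℝ) (p a b : ℝ × ℝ) : ℝ :=
  a.1 * b.1 + a.2 * b.2 + fderiv ℝ T p a * fderiv ℝ T p b

noncomputable def form2 (T : ℝ × ℝ → ℝ) (p a b : ℝ × ℝ) : ℝ :=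
  fderiv ℝ (fderiv ℝ T) p a b / √(1 + fderiv ℝ T p (1, 0) ^ 2 + fderiv ℝ T p (0, 1) ^ 2)

def Umbilic (T : ℝ × ℝ → ℝ) (p : ℝ × ℝ) : Prop :=
  ∃ k : ℝ, ∀ a b, form2 T p a b = k * form1 T p a b

def Principal (T : ℝ × ℝ → ℝ) (p a : ℝ × ℝ) : Prop :=
  ∃ k : ℝ, ∀ b, form2 T p a b = k * form1 T p a b

def IsothermalNear (T : ℝ × ℝ → ℝ) (U : Set (ℝ × ℝ)) (p : ℝ × ℝ) : Prop :=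
  ∃ (W : Set (ℝ × ℝ)) (φ : ℝ × ℝ → ℝ × ℝ) (lam : ℝ × ℝ → ℝ), IsOpen W ∧ ContDiffOn ℝ ∞ φ W ∧
    MapsTo φ W U ∧ p ∈ φ '' W ∧ ∀ w ∈ W, 0 < lam w ∧
      (∀ a b : ℝ × ℝ, form1 T (φ w) (fderiv ℝ φ w a) (fderiv ℝ φ w b) =
        lam w * (a.1 * b.1 + a.2 * b.2)) ∧
      Principal T (φ w) (fderiv ℝ φ w (1, 0)) ∧ Principal T (φ w) (fderiv ℝ φ w (0, 1))

end Pool.Agent.H.MP_9703cd_gt
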