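import Pool.Agent.H.MP_9703cd_gt.A

namespace Pool.Agent.H.MP_9703cd_gt

open Set Filter Topology
open scoped ContDiff

noncomputable def hh (t : ℝ) : ℝ := 3 / 4 + 16 * (t - 3 / 4) ^ 3

noncomputable def ss (t : ℝ) : ℝ := if t ≤ 1 / 2 then t else hh t

theorem hh_mono : StrictMono hh := by
  intro a b h
  have := (Odd.strictMono_pow (R := ℝ) (n := 3) (by decide)) (show a - 3 / 4 < b - 3 / 4 by linarith)
  simp only [hh] at this ⊢
  linarith

theorem hh_half : hh (1 / 2) = 1 / 2 := by norm_num [hh]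

theorem ss_mono : StrictMono ss := by
  intro a b h
  unfold ss
  split_ifs with h1 h2 h2
  · exact h
  · have := hh_mono (not_le.1 h2)
    rw [hh_half] at this
    linarith
  · linarith
  · exact hh_mono h

theorem ss_cont : Continuous ss := by
  refine Continuous.if_le continuous_id (by unfold hh; fun_prop) continuous_id continuous_const ?_
  rintro t rfl
  exact hh_half.symm

theorem ss_surj : Function.Surjective ss := by
  intro z
  by_cases hz : z ≤ 1 / 2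
  · exact ⟨z, if_pos hz⟩
  · have h1 : ss (1 / 2) ≤ z := by
      rw [show ss (1 / 2) = 1 / 2 from if_pos le_rfl]
      linarith
    have h2 : z ≤ ss (z + 1) := by
      rw [show ss (z + 1) = hh (z + 1) from if_neg (by linarith)]
      unfold hh
      have : 0 < z - 1 / 2 := by linarith
      nlinarith [mul_pos this this, mul_pos this (mul_pos this this)]
    obtain ⟨t, -, ht⟩ := intermediate_value_Icc (show 1 / 2 ≤ z + 1 by linarith)
      ss_cont.continuousOn ⟨h1, h2⟩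
    exact ⟨t, ht⟩

noncomputable def ee : ℝ ≃o ℝ := ss_mono.orderIsoOfSurjective ss ss_surj

theorem ee_apply (t : ℝ) : ee t = ss t := rfl

theorem ee0 : ee 0 = 0 := if_pos (by norm_num)

theorem ee1 : ee 1 = 1 := by
  rw [ee_apply, show ss 1 = hh 1 from if_neg (by norm_num)]
  norm_num [hh]

noncomputable def TT (p : ℝ × ℝ) : ℝ := ee.symm (max (ee p.1 + ee p.2 - 1) 0)

theorem ee_mem {x : ℝ} (hx : x ∈ Icc (0 : ℝ) 1) : 0 ≤ ee x ∧ ee x ≤ 1 :=
  ⟨ee0 ▸ ee.monotone hx.1, ee1 ▸ ee.monotone hx.2⟩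

theorem tnorm : IsContTNorm TT where
  maps := by
    intro x hx y hy
    have h1 := ee_mem hx
    have h2 := ee_mem hy
    constructor
    · rw [TT, ee.le_symm_apply, ee0]
      exact le_max_right _ _
    · rw [TT, ee.symm_apply_le, ee1]
      exact max_le (by linarith) zero_le_one
  assoc := by
    intro x hx y hy z hz
    have h1 := ee_mem hx
    have h2 := ee_mem hz
    simp only [TT, OrderIso.apply_symm_apply]
    congr 1
    simp only [max_def]
    split_ifs <;> linarith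
  comm := by
    intro x _ y _
    simp only [TT, add_comm]
  mono := by
    intro x _ x' _ y _ h
    exact ee.symm.monotone (max_le_max (by linarith [ee.monotone h]) le_rfl)
  one := by
    intro x hx
    simp only [TT, ee1, add_sub_cancel_right, max_eq_left (ee_mem hx).1, OrderIso.symm_apply_apply]
  cont := by
    have h1 := ee.continuous
    have h2 := ee.symm.continuous
    refine Continuous.continuousOn ?_
    unfold TT
    fun_prop

def UU : Set (ℝ × ℝ) :=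
  {p | (1 / 2 < p.1 ∧ p.1 < 1) ∧ (1 / 2 < p.2 ∧ p.2 < 1) ∧ hh p.1 + hh p.2 < 3 / 2}

theorem UU_open : IsOpen UU := by
  refine IsOpen.and (IsOpen.and ?_ ?_) (IsOpen.and (IsOpen.and ?_ ?_) ?_) <;>
    refine isOpen_lt ?_ ?_ <;> (try unfold hh) <;> fun_prop

noncomputable def GG (p : ℝ × ℝ) : ℝ := hh p.1 + hh p.2 - 1

theorem TT_eq {p : ℝ × ℝ} (hp : p ∈ UU) : TT p = GG p := by
  obtain ⟨⟨a1, -⟩, ⟨b1, -⟩, c⟩ := hp
  have e1 : ee p.1 = hh p.1 := if_neg (not_le.2 a1)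
  have e2 : ee p.2 = hh p.2 := if_neg (not_le.2 b1)
  have l1 := hh_mono a1
  have l2 := hh_mono b1
  rw [hh_half] at l1 l2
  rw [TT, e1, e2, max_eq_left (by linarith), OrderIso.symm_apply_eq]
  exact (if_pos (by unfold GG; linarith)).symm

noncomputable def G1 (p : ℝ × ℝ) : ℝ × ℝ →L[ℝ] ℝ :=
  (48 * ((p.1 - 3 / 4) * (p.1 - 3 / 4))) • ContinuousLinearMap.fst ℝ ℝ ℝ +
    (48 * ((p.2 - 3 / 4) * (p.2 - 3 / 4))) • ContinuousLinearMap.snd ℝ ℝ ℝ

theorem hG (p : ℝ × ℝ) : HasFDerivAt GG (G1 p) p := by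
  have h : ∀ t, HasDerivAt hh (48 * ((t - 3 / 4) * (t - 3 / 4))) t := by
    intro t
    refine (((((hasDerivAt_id t).sub_const (3 / 4)).pow 3).const_mul 16).const_add
      (3 / 4)).congr_deriv ?_
    simp
    ring
  exact (((h p.1).comp_hasFDerivAt (f := Prod.fst) p hasFDerivAt_fst).add
    ((h p.2).comp_hasFDerivAt (f := Prod.snd) p hasFDerivAt_snd)).sub_const 1

theorem d1 {p : ℝ × ℝ} (hp : p ∈ UU) : fderiv ℝ TT p = G1 p := by
  rw [← (hG p).fderiv]
  exact Filter.EventuallyEq.fderiv_eq (by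
    filter_upwards [UU_open.mem_nhds hp] with q hq using TT_eq hq)

theorem d2 {p : ℝ × ℝ} (hp : p ∈ UU) (a b : ℝ × ℝ) : fderiv ℝ (fderiv ℝ TT) p a b =
    96 * ((p.1 - 3 / 4) * a.1 * b.1 + (p.2 - 3 / 4) * a.2 * b.2) := by
  have e : fderiv ℝ (fderiv ℝ TT) p = fderiv ℝ G1 p := Filter.EventuallyEq.fderiv_eq (by
    filter_upwards [UU_open.mem_nhds hp] with q hq using d1 hq)
  have h1 := (hasFDerivAt_fst (𝕜 := ℝ) (p := p)).sub_const (3 / 4)
  have h2 := (hasFDerivAt_snd (𝕜 := ℝ) (p := p)).sub_const (3 / 4)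
  have h := (((h1.mul h1).const_mul 48).smul_const (ContinuousLinearMap.fst ℝ ℝ ℝ)).add
    (((h2.mul h2).const_mul 48).smul_const (ContinuousLinearMap.snd ℝ ℝ ℝ))
  have e2 : fderiv ℝ G1 p = _ := h.fderiv
  rw [e, e2]
  simp
  ring

theorem f1 {p : ℝ × ℝ} (hp : p ∈ UU) (a b : ℝ × ℝ) : form1 TT p a b = a.1 * b.1 + a.2 * b.2 +
    (48 * ((p.1 - 3 / 4) * (p.1 - 3 / 4)) * a.1 + 48 * ((p.2 - 3 / 4) * (p.2 - 3 / 4)) * a.2) *
    (48 * ((p.1 - 3 / 4) * (p.1 - 3 / 4)) * b.1 + 48 * ((p.2 - 3 / 4) * (p.2 - 3 / 4)) * b.2) := by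
  simp [form1, d1 hp, G1]

theorem f2 {p : ℝ × ℝ} (hp : p ∈ UU) : ∃ c : ℝ, 0 < c ∧ ∀ a b : ℝ × ℝ, form2 TT p a b =
    c * ((p.1 - 3 / 4) * a.1 * b.1 + (p.2 - 3 / 4) * a.2 * b.2) := by
  refine ⟨96 / √(1 + fderiv ℝ TT p (1, 0) ^ 2 + fderiv ℝ TT p (0, 1) ^ 2), by positivity, ?_⟩
  intro a b
  rw [form2, d2 hp]
  ring

theorem p0_mem : ((3 / 4, 5 / 8) : ℝ × ℝ) ∈ UU := by
  norm_num [UU, hh]

theorem not_umb : ¬ Umbilic TT (3 / 4, 5 / 8) := by
  rintro ⟨k, hk⟩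
  obtain ⟨c, hc, h⟩ := f2 p0_mem
  have h1 := hk (1, 0) (1, 0)
  have h2 := hk (0, 1) (0, 1)
  rw [h, f1 p0_mem] at h1 h2
  norm_num at h1
  rw [← h1] at h2
  norm_num at h2
  first | linarith | (exact hc.ne' h2) | nlinarith

theorem not_iso : ¬ IsothermalNear TT UU (3 / 4, 5 / 8) := by
  rintro ⟨W, φ, lam, hW, hφ, hm, ⟨w, hw, hw0⟩, h⟩
  let x : P → ℝ := fun p => (φ p).1 - 3 / 4
  let y : P → ℝ := fun p => (φ p).2 - 3 / 4
  have hx : ContDiffOn ℝ ∞ x W := hφ.fst.sub contDiffOn_const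
  have hy : ContDiffOn ℝ ∞ y W := hφ.snd.sub contDiffOn_const
  have dφ : ∀ p ∈ W, HasFDerivAt φ (fderiv ℝ φ p) p := fun p hp =>
    ((hφ.contDiffAt (hW.mem_nhds hp)).differentiableAt (by simp)).hasFDerivAt
  have dx : ∀ p ∈ W, ∀ e, D e x p = (fderiv ℝ φ p e).1 := fun p hp e => by
    rw [D, show fderiv ℝ x p = _ from ((dφ p hp).fst.sub_const (3 / 4)).fderiv]
    rfl
  have dy : ∀ p ∈ W, ∀ e, D e y p = (fderiv ℝ φ p e).2 := fun p hp e => by
    rw [D, show fderiv ℝ y p = _ from ((dφ p hp).snd.sub_const (3 / 4)).fderiv]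
    rfl
  have I : ∀ p ∈ W, ∀ a b : P, D a x p * D b x p + D a y p * D b y p +
      (48 * (x p * x p) * D a x p + 48 * (y p * y p) * D a y p) *
      (48 * (x p * x p) * D b x p + 48 * (y p * y p) * D b y p) =
      lam p * (a.1 * b.1 + a.2 * b.2) := by
    intro p hp a b
    rw [← (h p hp).2.1, f1 (hm hp), dx p hp, dx p hp, dy p hp, dy p hp]
  have F3 : ∀ p ∈ W, x p * D (1, 0) x p * D (0, 1) x p + y p * D (1, 0) y p * D (0, 1) y p = 0 := by
    intro p hp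
    obtain ⟨k, hk⟩ := (h p hp).2.2.1
    obtain ⟨c, hc, h2⟩ := f2 (hm hp)
    have := hk (fderiv ℝ φ p (0, 1))
    rw [(h p hp).2.1, h2] at this
    simp only [mul_zero, mul_one, add_zero] at this
    rw [dx p hp, dx p hp, dy p hp, dy p hp]
    exact (mul_eq_zero.1 this).resolve_left hc.ne'
  have x0 : x w = 0 := by simp [x, hw0]
  have y0 : y w = -1 / 8 := by norm_num [y, hw0]
  have hl := (h w hw).1
  have c3 := F3 w hw
  rw [x0, y0] at c3
  have c4 : D (1, 0) y w * D (0, 1) y w = 0 := by linarith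
  rcases mul_eq_zero.1 c4 with h0 | h0
  · have := core hW hx hy (1, 0) (0, 1) hw x0 y0 h0 (fun p hp => by rw [I p hp]; simp)
      (fun p hp => by rw [I p hp, I p hp]; simp) F3
    have h5 := I w hw (1, 0) (1, 0)
    rw [this, h0] at h5
    simp at h5
    linarith
  · have := core hW hx hy (0, 1) (1, 0) hw x0 y0 h0 (fun p hp => by rw [I p hp]; simp)
      (fun p hp => by rw [I p hp, I p hp]; simp) (fun p hp => by linarith [F3 p hp])
    have h5 := I w hw (0, 1) (0, 1)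
    rw [this, h0] at h5
    simp at h5
    linarith

theorem main : ∃ (T : ℝ × ℝ → ℝ) (U : Set (ℝ × ℝ)) (p : ℝ × ℝ), IsContTNorm T ∧ IsOpen U ∧
    U ⊆ Ioo 0 1 ×ˢ Ioo 0 1 ∧ ContDiffOn ℝ ∞ T U ∧ p ∈ U ∧ ¬ Umbilic T p ∧
    ¬ IsothermalNear T U p := by
  refine ⟨TT, UU, _, tnorm, UU_open, ?_, ?_, p0_mem, not_umb, not_iso⟩
  · rintro p ⟨⟨a, b⟩, ⟨c, d⟩, -⟩
    exact ⟨⟨by linarith, b⟩, by linarith, d⟩
  · refine ContDiffOn.congr (f := GG) (ContDiff.contDiffOn ?_) fun p hp => TT_eq hp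
    unfold GG hh
    fun_prop

end Pool.Agent.H.MP_9703cd_gt
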